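import Pool.Agent.Mg.F994d64.G0524dd

namespace Pool.Agent.Results.MP_994d64_an.ConjugateBound

open Pool.Agent.MP_994d64_an

theorem result (c : ℝ)
    (hc : (Set.range fun n : ℕ => (fun x : ℝ => x ^ 2 + c)^[n + 1] 0).Finite) (l : ℝ)
    (hl : l = Real.exp (Dynamics.coverEntropy (fun x : ℝ => x ^ 2 + c)
      (Set.Icc (-((1 + √(1 - 4 * c)) / 2)) ((1 + √(1 - 4 * c)) / 2))).toReal)
    (z : ℂ) (hz : Polynomial.aeval z (minpoly ℚ l) = 0) (hne : z ≠ l) :
    ‖z‖ < √2 ∨ (l = √2 ∧ z = -(√2 : ℝ)) := by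
  have hl' : l = Real.exp (ent c).toReal := hl
  rcases tent_of_pcf (c := c) hc with h | ⟨x, e, T⟩
  · rw [← hl'] at h
    subst h
    simp only [minpoly.one, map_sub, Polynomial.aeval_X, map_one] at hz
    exact absurd (by simpa using sub_eq_zero.1 hz) hne
  · rw [← hl'] at T
    exact T.conj_lt hz hne

end Pool.Agent.Results.MP_994d64_an.ConjugateBound
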