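import Pool.Agent.Mg.F994d64ap.G5ed829

namespace Pool.Agent.Results.MP_994d64_an.Expanding

open Pool.Agent.MP_994d64_an

theorem result (l : ℝ) (h1 : 1 < l) :
    ((∃ c : ℝ, (Set.range fun n : ℕ => (fun x : ℝ => x ^ 2 + c)^[n + 1] 0).Finite ∧
        l = Real.exp (Dynamics.coverEntropy (fun x : ℝ => x ^ 2 + c)
          (Set.Icc (-((1 + √(1 - 4 * c)) / 2)) ((1 + √(1 - 4 * c)) / 2))).toReal) ∧
      ∀ z : ℂ, Polynomial.aeval z (minpoly ℚ l) = 0 → 1 ≤ ‖z‖) ↔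
    ∃ (j : ℕ) (m : ℝ), m = l ^ 2 ^ j ∧
      (m = 2 ∨ m ^ 3 - 2 * m - 2 = 0 ∨ m ^ 3 - m ^ 2 - 2 = 0 ∨
        m ^ 3 - 2 * m ^ 2 + 2 * m - 2 = 0 ∨ m ^ 4 - 2 * m ^ 3 + 2 * m - 2 = 0 ∨
        m ^ 5 - m ^ 4 - m ^ 3 + m ^ 2 - 2 = 0 ∨
        m ^ 6 - 2 * m ^ 5 + m ^ 4 - m ^ 2 + 2 * m - 2 = 0) := by
  constructor
  · rintro ⟨⟨c, hc, hl⟩, hz⟩
    have hl' : l = Real.exp (ent c).toReal := hl
    rcases tent_of_pcf (c := c) hc with h | ⟨x, e, T⟩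
    · exact absurd (hl'.trans h) h1.ne'
    · rw [← hl'] at T
      obtain ⟨j, hj⟩ := Ex.sev_of_tent T hz
      exact ⟨j, _, rfl, hj⟩
  · rintro ⟨j, m, rfl, hj⟩
    obtain ⟨c, hc, hl⟩ := Ex.real_of_sev h1 hj
    exact ⟨⟨c, hc, hl.symm⟩, Ex.out_of_sev hj⟩

end Pool.Agent.Results.MP_994d64_an.Expanding
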