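import Pool.Agent.Mg.F994d64ap.G043151

namespace Pool.Agent.Results.MP_994d64_an.ThurstonSet

open Pool.Agent.MP_994d64_an

theorem result (a : ℝ) (ha : a < 2) (z : ℂ) (hz : ‖z‖ < 1) :
    z ∈ closure {w : ℂ | ∃ l : ℝ, a < l ∧
        (∃ c : ℝ, (Set.range fun n : ℕ => (fun x : ℝ => x ^ 2 + c)^[n + 1] 0).Finite ∧
          l = Real.exp (Dynamics.coverEntropy (fun x : ℝ => x ^ 2 + c)
            (Set.Icc (-((1 + √(1 - 4 * c)) / 2)) ((1 + √(1 - 4 * c)) / 2))).toReal) ∧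
        Polynomial.aeval w (minpoly ℚ l) = 0} ↔
    ∃ u : ℕ → ℤ, u 0 = 1 ∧ (∀ n, u n = -1 ∨ u n = 0 ∨ u n = 1) ∧
      HasSum (fun n => (u n : ℂ) * z ^ n) 0 := by
  constructor
  · intro h
    obtain ⟨u, h1, h2, h3⟩ := TS.MM_closed (fun w hw hw1 => by
      obtain ⟨l, -, ⟨c, hc, rfl⟩, hl⟩ := hw
      exact TS.MM_of_conj (c := c) hc hl hw1) hz h
    refine ⟨u, h2, fun n => ?_, h3⟩
    have := abs_le.1 (h1 n)
    omega
  · rintro ⟨u, h1, h2, h3⟩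
    refine Metric.mem_closure_iff.2 fun ε hε => ?_
    obtain ⟨l, w, ⟨c, hc, hl⟩, hal, hw, hd⟩ := TS.exists_conj hz
      ⟨u, fun n => by rcases h2 n with h | h | h <;> simp [h], h1, h3⟩ hε ha
    exact ⟨w, ⟨l, hal, ⟨c, hc, hl.symm⟩, hw⟩, by rwa [dist_comm, dist_eq_norm]⟩

end Pool.Agent.Results.MP_994d64_an.ThurstonSet
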