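import Pool.Agent.Mg.F994d64.G0524dd
import Pool.Agent.Mg.F994d64.Gdd6ddc

namespace Pool.Agent.Results.MP_994d64_an.TotallyReal

open Pool.Agent.MP_994d64_an

theorem result (l : ℝ) :
    ((∃ c : ℝ, (Set.range fun n : ℕ => (fun x : ℝ => x ^ 2 + c)^[n + 1] 0).Finite ∧
        l = Real.exp (Dynamics.coverEntropy (fun x : ℝ => x ^ 2 + c)
          (Set.Icc (-((1 + √(1 - 4 * c)) / 2)) ((1 + √(1 - 4 * c)) / 2))).toReal) ∧
      ∀ z : ℂ, Polynomial.aeval z (minpoly ℚ l) = 0 → z.im = 0) ↔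
    (l = 1 ∨ l = √2 ∨ l = (1 + √5) / 2 ∨ l = 2) := by
  constructor
  · rintro ⟨⟨c, hc, hl⟩, hr⟩
    have hl' : l = Real.exp (ent c).toReal := hl
    rcases tent_of_pcf (c := c) hc with h | ⟨x, e, T⟩
    · exact Or.inl (hl'.trans h)
    · rw [← hl'] at T
      exact Or.inr (T.totally_real hr)
  · intro h
    refine ⟨?_, real_of_four h⟩
    rcases h with rfl | rfl | rfl | rfl
    · obtain ⟨c, hc, hD⟩ := ex_one
      refine ⟨c, hc, (inv_one.symm.trans (exp_ent hc one_pos le_rfl (fun t h0 h1 => ?_)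
        fun h => absurd h (lt_irrefl _)).symm)⟩
      rw [hD t h0 h1]; exact div_pos one_pos (by linarith)
    · obtain ⟨c, hc, hD⟩ := ex_sqrt
      have h2 : (√2 : ℝ) ^ 2 = 2 := Real.sq_sqrt (by norm_num)
      have h1 : (1 : ℝ) < √2 := by nlinarith [Real.sqrt_nonneg 2]
      have hi : (√2 : ℝ)⁻¹ < 1 := inv_lt_one_of_one_lt₀ h1
      have hp : (0 : ℝ) < (√2)⁻¹ := inv_pos.2 (by linarith)
      have hq : ((√2 : ℝ)⁻¹) ^ 2 = 1 / 2 := by rw [inv_pow, h2]; norm_num
      refine ⟨c, hc, ((inv_inv _).symm.trans (exp_ent hc hp hi.le (fun t h0 h1 => ?_)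
        fun h => ?_).symm)⟩
      · rw [hD t h0 (h1.trans hi)]; exact div_pos (by nlinarith) (by linarith)
      · rw [hD _ hp.le hi, hq]; norm_num
    · obtain ⟨c, hc, hD⟩ := ex_gold
      have h2 : (√5 : ℝ) ^ 2 = 5 := Real.sq_sqrt (by norm_num)
      have h1 : (2 : ℝ) < √5 := by nlinarith [Real.sqrt_nonneg 5]
      have h3 : (√5 : ℝ) < 3 := by nlinarith [Real.sqrt_nonneg 5]
      have hinv : ((√5 - 1) / 2 : ℝ)⁻¹ = (1 + √5) / 2 :=
        inv_eq_of_mul_eq_one_right (by nlinarith)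
      refine ⟨c, hc, (hinv.symm.trans (exp_ent hc (by linarith) (by linarith)
        (fun t h0 h1 => ?_) fun h => ?_).symm)⟩
      · have ht : t < 1 := by linarith
        rw [hD t h0 ht]
        exact div_pos (by nlinarith) (by have := pow_lt_one₀ h0 ht three_ne_zero; linarith)
      · rw [hD _ (by linarith) h, div_eq_zero_iff]; left; nlinarith
    · obtain ⟨c, hc, hD⟩ := ex_two
      refine ⟨c, hc, ((by norm_num : (2 : ℝ) = (1 / 2)⁻¹).trans (exp_ent hc (by norm_num)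
        (by norm_num) (fun t h0 h1 => ?_) fun h => ?_).symm)⟩
      · rw [hD t h0 (by linarith)]; exact div_pos (by linarith) (by linarith)
      · rw [hD _ (by norm_num) h]; norm_num

end Pool.Agent.Results.MP_994d64_an.TotallyReal
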